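import Mathlib
import Pool.Agent.J6H19.KB.Main

/-!
A general upper bound for the number of irreducible characters in a `p`-block, `p` odd.
-/

namespace Pool.Agent.Results.MP_a15589_al.GeneralBoundOdd

open Pool.Agent.H254R3.IN Pool.Agent.N20

/-- Let `p` be an odd prime and let `B` be a `p`-block of a finite group `G` with defect group `D`
of order `p ^ d`. Then `k(B) ≤ 2 p ^ (2 d - 3 + 2 ^ (2 - d))`. -/
theorem result {G : Type} [Group G] [Finite G] {p : ℕ} (hp : p.Prime) (hp2 : p ≠ 2)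
    (O : ValuationSubring ℂ) (hpO : (p : ℂ) ∈ O.nonunits) (B : Set (G → ℂ)) (hB : IsBlock O B)
    (D : Subgroup G) (hD : IsDefectGroup p O B D) (d : ℕ) (hd : Nat.card D = p ^ d) :
    (Nat.card B : ℝ) ≤ 2 * (p : ℝ) ^ (2 * (d : ℝ) - 3 + 2 ^ (2 - (d : ℝ))) := by
  have := Fintype.ofFinite G
  have : Fact p.Prime := ⟨hp⟩
  have hp0 : (0 : ℝ) < p := by exact_mod_cast hp.pos
  have hp1 : (1 : ℝ) ≤ p := by exact_mod_cast hp.one_lt.le
  rcases Nat.lt_or_ge d 3 with h | h
  · have h1 := Pool.Agent.J6H19.KB.small_defect hpO d (by omega) G D B hB hD hd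
    have h2 : (Nat.card B : ℝ) ≤ ((p ^ d : ℕ) : ℝ) := by exact_mod_cast h1
    have h3 : (p : ℝ) ^ (d : ℝ) ≤ (p : ℝ) ^ (2 * (d : ℝ) - 3 + 2 ^ (2 - (d : ℝ))) := by
      apply Real.rpow_le_rpow_of_exponent_le hp1
      interval_cases d
      · norm_num
      · norm_num
      · norm_num
    rw [Real.rpow_natCast] at h3
    push_cast at h2
    have h4 : 0 ≤ (p : ℝ) ^ (2 * (d : ℝ) - 3 + 2 ^ (2 - (d : ℝ))) := Real.rpow_nonneg hp0.le _
    linarith
  · obtain ⟨e, rfl⟩ : ∃ e, d = e + 3 := ⟨d - 3, by omega⟩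
    have h1 := Pool.Agent.J6H19.KB.general_bound hp2 hpO e G D B hB hD hd
    refine h1.trans (le_of_eq ?_)
    unfold Pool.Agent.J6H19.KB.XX
    rw [mul_assoc]
    congr 1
    rw [← Real.rpow_natCast, ← Real.rpow_add hp0]
    congr 1
    push_cast
    ring

end Pool.Agent.Results.MP_a15589_al.GeneralBoundOdd
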