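import Mathlib
import Pool.Agent.J6H19.KT.Bound

/-!
A general upper bound for the number of irreducible characters in a `2`-block.
-/

namespace Pool.Agent.Results.MP_a15589_al.GeneralBoundTwo

open Pool.Agent.H254R3.IN Pool.Agent.N20

/-- Let `B` be a `2`-block of a finite group `G` with defect group `D` of order `2 ^ d`. Then
`k(B) ≤ (4 / 25) |D| ^ 2 + |D|`, and if `d ≥ 3` then
`k(B) ≤ (4 / 25) |D| ^ 2 + 12 (8 / 7) ^ d - 14`, which is less than `|D| ^ 2 / 4`. -/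
theorem result {G : Type} [Group G] [Finite G] (O : ValuationSubring ℂ)
    (h2O : ((2 : ℕ) : ℂ) ∈ O.nonunits) (B : Set (G → ℂ)) (hB : IsBlock O B) (D : Subgroup G)
    (hD : IsDefectGroup 2 O B D) (d : ℕ) (hd : Nat.card D = 2 ^ d) :
    (Nat.card B : ℝ) ≤ 4 / 25 * (Nat.card D : ℝ) ^ 2 + Nat.card D ∧
    (3 ≤ d → (Nat.card B : ℝ) ≤ 4 / 25 * (Nat.card D : ℝ) ^ 2 + 12 * (8 / 7) ^ d - 14 ∧
      4 * Nat.card B < Nat.card D ^ 2) := by
  have := Fintype.ofFinite G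
  have : Fact (Nat.Prime 2) := ⟨Nat.prime_two⟩
  have main : ∀ e : ℕ, d = e + 3 →
      (Nat.card B : ℝ) ≤ 4 / 25 * (Nat.card D : ℝ) ^ 2 + 12 * (8 / 7) ^ d - 14 := by
    intro e he
    subst he
    have h1 := Pool.Agent.J6H19.KT.bound_two' h2O e G D B hB hD hd
    have h2 : (Nat.card D : ℝ) ^ 2 = 4 ^ (e + 3) := by
      rw [hd]
      push_cast
      rw [← pow_mul, mul_comm, pow_mul]
      norm_num
    rw [h2]
    exact h1
  have key : ∀ e : ℕ, 12 * (8 / 7 : ℝ) ^ (e + 3) ≤ 2 ^ (e + 3) + 14 := by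
    intro e
    induction e with
    | zero => norm_num
    | succ e ih =>
      have h1 : (1 : ℝ) ≤ 2 ^ e := one_le_pow₀ (by norm_num)
      have h2 : (2 : ℝ) ^ (e + 3) = 8 * 2 ^ e := by rw [pow_add]; norm_num; ring
      have h3 : (8 / 7 : ℝ) ^ (e + 1 + 3) = 8 / 7 * (8 / 7) ^ (e + 3) := by ring
      have h4 : (2 : ℝ) ^ (e + 1 + 3) = 2 * 2 ^ (e + 3) := by ring
      rw [h3, h4]
      linarith
  rcases Nat.lt_or_ge d 3 with h | h
  · refine ⟨?_, fun h3 => absurd h3 (by omega)⟩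
    have h1 := Pool.Agent.J6H19.KB.small_defect h2O d (by omega) G D B hB hD hd
    have h2 : (Nat.card B : ℝ) ≤ Nat.card D := by
      rw [hd]
      exact_mod_cast h1
    have h3 : (0 : ℝ) ≤ 4 / 25 * (Nat.card D : ℝ) ^ 2 := by positivity
    linarith
  · obtain ⟨e, rfl⟩ : ∃ e, d = e + 3 := ⟨d - 3, by omega⟩
    have h1 := main e rfl
    have h2 := key e
    have h3 : (Nat.card D : ℝ) = 2 ^ (e + 3) := by rw [hd]; push_cast; rfl
    refine ⟨by rw [h3] at h1 ⊢; linarith, fun _ => ⟨h1, ?_⟩⟩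
    have h4 : (4 * Nat.card B : ℝ) < (Nat.card D : ℝ) ^ 2 := by
      rcases Nat.eq_zero_or_pos e with rfl | he
      · rw [h3] at h1 ⊢
        norm_num at h1 ⊢
        linarith
      · have h5 : (16 : ℝ) ≤ 2 ^ (e + 3) := by
          calc (16 : ℝ) = 2 ^ 4 := by norm_num
            _ ≤ 2 ^ (e + 3) := pow_le_pow_right₀ (by norm_num) (by omega)
        rw [h3] at h1 ⊢
        nlinarith
    exact_mod_cast h4

end Pool.Agent.Results.MP_a15589_al.GeneralBoundTwo
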