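import Mathlib
import Pool.Agent.J6H19.KB.SubOne

/-!
An inequality between the number of characters of height zero of a block and the number of
irreducible Brauer characters of a subsection, `p` odd.
-/

namespace Pool.Agent.Results.MP_a15589_al.HeightZeroMean

open Pool.Agent.H254R3.IN Pool.Agent.N20

/-- Let `p` be an odd prime, let `B` be a `p`-block of a finite group `G` and let `(u, b)` be a
`B`-subsection: `u` is a `p`-element of `G` and `b` is a block of `C_G(u)` with `b^G = B`. Let `Q`
be a defect group of `b`. Then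
`(p - 1) k₀(B)² ≤ |Q|² l(b) + c |Q| k₀(B)`, where `c` is the sum of the numbers
`(p - 1) / m - m` over the positive integers `m` with `m² < p - 1`. -/
theorem result {G : Type} [Group G] [Finite G] {p : ℕ} (hp : p.Prime) (hp2 : p ≠ 2)
    (O : ValuationSubring ℂ) (hpO : (p : ℂ) ∈ O.nonunits) (B : Set (G → ℂ)) (hB : IsBlock O B)
    (D : Subgroup G) (hD : IsDefectGroup p O B D) (u : G) (k : ℕ) (hu : orderOf u = p ^ k)
    (b : Set (Subgroup.centralizer ({u} : Set G) → ℂ)) (hb : IsBlock O b)
    (Q : Subgroup (Subgroup.centralizer ({u} : Set G))) (hQ : IsDefectGroup p O b Q)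
    (hbB : Induces O B (Subgroup.centralizer ({u} : Set G)) b) :
    ((p : ℝ) - 1) * (Nat.card {χ : G → ℂ // χ ∈ B ∧ HeightZero p D χ} : ℝ) ^ 2 ≤
      (Nat.card Q : ℝ) ^ 2 * lB p b +
      (∑ m ∈ (Finset.range p).filter (fun m => 0 < m ∧ m ^ 2 < p - 1),
        (((p : ℝ) - 1) / m - m)) *
      ((Nat.card Q : ℝ) * Nat.card {χ : G → ℂ // χ ∈ B ∧ HeightZero p D χ}) := by
  have := Fintype.ofFinite G
  have : Fact p.Prime := ⟨hp⟩
  exact Pool.Agent.J6H19.KB.height_zero_mean hpO hB hD hb hQ hbB hp2 hu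

end Pool.Agent.Results.MP_a15589_al.HeightZeroMean
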